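import Mathlib

/-! Definitions for Frobenius partitions of groups (problem MP_c23b5e_al). -/

set_option autoImplicit false

namespace Pool.Agent.H7.Frobenius

variable {Γ : Type} [Group Γ]

/-- A collection `P` of subgroups is a partition of `Γ`: every non-identity element of `Γ` lies in
exactly one member of `P`. -/
def IsPartition (P : Set (Subgroup Γ)) : Prop :=
  ∀ g : Γ, g ≠ 1 → ∃! A : Subgroup Γ, A ∈ P ∧ g ∈ A

/-- The conjugate subgroup `γ⁻¹ A γ`. -/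
def conj (γ : Γ) (A : Subgroup Γ) : Subgroup Γ := A.map (MulAut.conj γ⁻¹).toMonoidHom

/-- `A` is malnormal: `γ⁻¹ A γ ∩ A = {1}` for every `γ ∈ Γ ∖ A`. -/
def IsMalnormal (A : Subgroup Γ) : Prop := ∀ γ : Γ, γ ∉ A → conj γ A ⊓ A = ⊥

/-- `{Γ₁} ∪ 𝒜` is a Frobenius partition of `Γ`: it is a partition, `Γ₁` is normal, every
`A ∈ 𝒜` is malnormal and every conjugate of a member of `𝒜` is again in `𝒜`. -/
structure IsFrobeniusPartition (Γ₁ : Subgroup Γ) (𝒜 : Set (Subgroup Γ)) : Prop where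
  partition : IsPartition (insert Γ₁ 𝒜)
  normal : Γ₁.Normal
  malnormal : ∀ A ∈ 𝒜, IsMalnormal A
  conj_mem : ∀ A ∈ 𝒜, ∀ γ : Γ, conj γ A ∈ 𝒜

/-- A nontrivial Frobenius partition: it contains at least two nontrivial subgroups. -/
def IsNontrivialFrobeniusPartition (Γ₁ : Subgroup Γ) (𝒜 : Set (Subgroup Γ)) : Prop :=
  IsFrobeniusPartition Γ₁ 𝒜 ∧
    ∃ A ∈ insert Γ₁ 𝒜, ∃ B ∈ insert Γ₁ 𝒜, A ≠ ⊥ ∧ B ≠ ⊥ ∧ A ≠ B

end Pool.Agent.H7.Frobenius
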