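import Mathlib
import Pool.Agent.H7.Frobenius.Defs

set_option autoImplicit false

namespace Pool.Agent.H7.Frobenius

open MulAction

section general

variable {Γ : Type} [Group Γ] {X : Type} [MulAction Γ X]

lemma mem_conj (γ : Γ) (A : Subgroup Γ) (y : Γ) : y ∈ conj γ A ↔ γ * y * γ⁻¹ ∈ A := by
  unfold conj
  rw [Subgroup.mem_map]
  constructor
  · rintro ⟨x, hx, rfl⟩
    simpa [mul_assoc] using hx
  · intro h
    refine ⟨_, h, ?_⟩
    simp [mul_assoc]

/-- The stabilisers that contain an element outside `N`. -/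
def stabs (X : Type) [MulAction Γ X] (N : Subgroup Γ) : Set (Subgroup Γ) :=
  {A | ∃ x : X, A = stabilizer Γ x ∧ ∃ g : Γ, g ∉ N ∧ g • x = x}

theorem frobenius_of_action (N : Subgroup Γ) (hN : N.Normal)
    (h1 : ∀ g : Γ, g ∉ N → ∃! x : X, g • x = x)
    (h2 : ∀ g : Γ, g ∉ N → ∀ h : Γ, h ∈ N → ∀ x : X, g • x = x → h • x = x → h = 1) :
    IsFrobeniusPartition N (stabs X N) where
  partition := by
    intro g hg
    by_cases hgN : g ∈ N
    · refine ⟨N, ⟨Set.mem_insert _ _, hgN⟩, ?_⟩
      rintro B ⟨hB | ⟨x, rfl, k, hk, hkx⟩, hgB⟩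
      · exact hB
      · exact absurd (h2 k hk g hgN x hkx (mem_stabilizer_iff.mp hgB)) hg
    · obtain ⟨x, hx, hux⟩ := h1 g hgN
      refine ⟨stabilizer Γ x, ⟨Or.inr ⟨x, rfl, g, hgN, hx⟩, mem_stabilizer_iff.mpr hx⟩, ?_⟩
      rintro B ⟨hB | ⟨y, rfl, k, hk, hky⟩, hgB⟩
      · rw [hB] at hgB; exact absurd hgB hgN
      · rw [hux y (mem_stabilizer_iff.mp hgB)]
  normal := hN
  malnormal := by
    rintro A ⟨x, rfl, k, hk, hkx⟩ γ hγ
    rw [eq_bot_iff]
    intro y hy
    rw [Subgroup.mem_inf, mem_conj, mem_stabilizer_iff, mem_stabilizer_iff] at hy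
    rw [Subgroup.mem_bot]
    by_contra hy1
    have hyN : y ∉ N := fun h => hy1 (h2 k hk y h x hkx hy.2)
    obtain ⟨z, hz, huz⟩ := h1 y hyN
    have e1 : y • (γ⁻¹ • x) = γ⁻¹ • x := by
      have := hy.1
      rw [mul_smul, mul_smul] at this
      rw [eq_inv_smul_iff]; exact this
    have e2 : γ⁻¹ • x = x := (huz _ e1).trans (huz _ hy.2).symm
    apply hγ
    rw [mem_stabilizer_iff]
    conv_lhs => rw [← e2]
    rw [smul_inv_smul]
  conj_mem := by
    rintro A ⟨x, rfl, k, hk, hkx⟩ γ
    refine ⟨γ⁻¹ • x, ?_, γ⁻¹ * k * γ, ?_, ?_⟩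
    · ext y
      rw [mem_conj, mem_stabilizer_iff, mem_stabilizer_iff, mul_smul, mul_smul,
        eq_inv_smul_iff]
    · intro h
      apply hk
      have := hN.conj_mem _ h γ
      simpa [mul_assoc] using this
    · rw [mul_smul, mul_smul, smul_inv_smul, hkx]

theorem nontrivial_of_action (N : Subgroup Γ) (hN : N.Normal)
    (h1 : ∀ g : Γ, g ∉ N → ∃! x : X, g • x = x)
    (h2 : ∀ g : Γ, g ∉ N → ∀ h : Γ, h ∈ N → ∀ x : X, g • x = x → h • x = x → h = 1)
    (hb : N ≠ ⊥) (g : Γ) (hg : g ∉ N) :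
    IsNontrivialFrobeniusPartition N (stabs X N) := by
  refine ⟨frobenius_of_action N hN h1 h2, N, Set.mem_insert _ _, ?_⟩
  obtain ⟨x, hx, _⟩ := h1 g hg
  have hgs : g ∈ stabilizer Γ x := mem_stabilizer_iff.mpr hx
  refine ⟨stabilizer Γ x, Or.inr ⟨x, rfl, g, hg, hx⟩, hb, ?_, ?_⟩
  · intro h
    rw [h, Subgroup.mem_bot] at hgs
    exact hg (hgs ▸ N.one_mem)
  · intro h
    rw [← h] at hgs
    exact hg hgs

lemma stabs_ne_bot (N : Subgroup Γ) : ∀ A ∈ stabs X N, A ≠ ⊥ := by
  rintro A ⟨x, rfl, g, hg, hx⟩ h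
  have hgs : g ∈ stabilizer Γ x := mem_stabilizer_iff.mpr hx
  rw [h, Subgroup.mem_bot] at hgs
  exact hg (hgs ▸ N.one_mem)

end general

/-! ### First example: `ℂ⟦X⟧` with a twisted multiplication -/

open PowerSeries

/-- `E a = exp (aX)`. -/
noncomputable def E (a : ℂ) : PowerSeries ℂ := PowerSeries.rescale a (PowerSeries.exp ℂ)

lemma E_add (a b : ℂ) : E (a + b) = E a * E b := by
  unfold E; rw [PowerSeries.exp_mul_exp_eq_exp_add]

lemma E_zero : E 0 = 1 := by
  unfold E; simp

lemma E_const (a : ℂ) : constantCoeff (E a) = 1 := by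
  unfold E
  rw [← PowerSeries.coeff_zero_eq_constantCoeff_apply, PowerSeries.coeff_rescale]
  simp

lemma E_coeff_one (a : ℂ) : coeff 1 (E a) = a := by
  unfold E
  rw [PowerSeries.coeff_rescale, PowerSeries.coeff_exp]
  simp

/-- The underlying set of the first group: power series over `ℂ`. -/
@[ext]
structure G1 where
  /-- the power series -/
  b : PowerSeries ℂ

/-- `a(b) = conj (b(0))`. -/
noncomputable def G1.a (g : G1) : ℂ := (starRingEnd ℂ) (constantCoeff g.b)

noncomputable instance : Group G1 where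
  mul g h := ⟨g.b + E g.a * h.b⟩
  one := ⟨0⟩
  inv g := ⟨-(E (-g.a) * g.b)⟩
  mul_assoc g h k := by
    apply G1.ext
    change (g.b + E g.a * h.b) + E (G1.a ⟨g.b + E g.a * h.b⟩) * k.b =
      g.b + E g.a * (h.b + E h.a * k.b)
    have : G1.a ⟨g.b + E g.a * h.b⟩ = g.a + h.a := by
      simp [G1.a, E_const]
    rw [this, E_add]; ring
  one_mul g := by
    apply G1.ext
    change 0 + E (G1.a ⟨0⟩) * g.b = g.b
    have : G1.a ⟨0⟩ = 0 := by simp [G1.a]
    rw [this, E_zero]; ring
  mul_one g := by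
    apply G1.ext
    change g.b + E g.a * 0 = g.b
    ring
  inv_mul_cancel g := by
    apply G1.ext
    change -(E (-g.a) * g.b) + E (G1.a ⟨-(E (-g.a) * g.b)⟩) * g.b = 0
    have : G1.a ⟨-(E (-g.a) * g.b)⟩ = -g.a := by
      simp [G1.a, E_const]
    rw [this]; ring

lemma G1.mul_b (g h : G1) : (g * h).b = g.b + E g.a * h.b := rfl
lemma G1.one_b : (1 : G1).b = 0 := rfl
lemma G1.one_a : (1 : G1).a = 0 := by simp [G1.a, G1.one_b]
lemma G1.mul_a (g h : G1) : (g * h).a = g.a + h.a := by
  simp [G1.a, G1.mul_b, E_const]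

/-- The homomorphism `g ↦ a(g)`. -/
noncomputable def aHom : G1 →* Multiplicative ℂ where
  toFun g := Multiplicative.ofAdd g.a
  map_one' := by rw [G1.one_a]; rfl
  map_mul' g h := by rw [G1.mul_a]; rfl

/-- The fraction field on which the group acts. -/
abbrev K1 := FractionRing (PowerSeries ℂ)

/-- The embedding of power series. -/
noncomputable abbrev io : PowerSeries ℂ →+* K1 := algebraMap (PowerSeries ℂ) K1

lemma io_inj : Function.Injective io := IsFractionRing.injective (PowerSeries ℂ) K1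

noncomputable instance : MulAction G1 K1 where
  smul g x := io (E g.a) * x + io g.b
  one_smul x := by
    change io (E (G1.a 1)) * x + io (G1.b 1) = x
    rw [G1.one_a, G1.one_b, E_zero, map_one, map_zero]; ring
  mul_smul g h x := by
    change io (E (g * h).a) * x + io (g * h).b = io (E g.a) * (io (E h.a) * x + io h.b) + io g.b
    rw [G1.mul_a, G1.mul_b, E_add, map_mul, map_add, map_mul]; ring

lemma G1.smul_def (g : G1) (x : K1) : g • x = io (E g.a) * x + io g.b := rfl

lemma E_ne_one {a : ℂ} (ha : a ≠ 0) : E a ≠ 1 := by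
  intro h
  have := congrArg (coeff 1) h
  rw [E_coeff_one] at this
  simp [PowerSeries.coeff_one] at this
  exact ha this

lemma fix_iff (g : G1) (x : K1) : g • x = x ↔ (1 - io (E g.a)) * x = io g.b := by
  rw [G1.smul_def]
  constructor
  · intro h; linear_combination -h
  · intro h; linear_combination -h

lemma unique_fix (g : G1) (ha : g.a ≠ 0) : ∃! x : K1, g • x = x := by
  have hne : (1 - io (E g.a)) ≠ 0 := by
    rw [sub_ne_zero]
    intro h
    rw [← map_one io] at h
    exact E_ne_one ha (io_inj h).symm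
  refine ⟨io g.b / (1 - io (E g.a)), ?_, ?_⟩
  · change g • _ = _
    rw [fix_iff, mul_div_cancel₀ _ hne]
  · intro y hy
    rw [fix_iff] at hy
    rw [eq_div_iff hne, mul_comm]; exact hy

lemma fix_trans (g : G1) (ha : g.a = 0) (x : K1) (h : g • x = x) : g = 1 := by
  rw [fix_iff, ha, E_zero, map_one, sub_self, zero_mul] at h
  apply G1.ext
  rw [G1.one_b]
  apply io_inj
  rw [← h, map_zero]

/-- Two elements fixing the same point have real-proportional parameters. -/
lemma common_fix (g h : G1) (x : K1) (hg : g • x = x) (hh : h • x = x) :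
    g.a * (starRingEnd ℂ) h.a = h.a * (starRingEnd ℂ) g.a := by
  rw [fix_iff] at hg hh
  have e : io ((1 - E h.a) * g.b) = io ((1 - E g.a) * h.b) := by
    rw [map_mul, map_mul, map_sub, map_sub, map_one, ← hg, ← hh]; ring
  have e2 := congrArg (coeff 1) (io_inj e)
  have key : ∀ (p : PowerSeries ℂ) (a : ℂ),
      coeff 1 ((1 - E a) * p) = - a * constantCoeff p := by
    intro p a
    rw [PowerSeries.coeff_mul, Finset.Nat.antidiagonal_succ]
    simp [E_const, E_coeff_one, PowerSeries.coeff_one]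
  rw [key, key] at e2
  have c1 : constantCoeff g.b = (starRingEnd ℂ) g.a := by simp [G1.a]
  have c2 : constantCoeff h.b = (starRingEnd ℂ) h.a := by simp [G1.a]
  rw [c1, c2] at e2
  linear_combination e2

/-- The preimage in `G1` of a subgroup of `ℂ`. -/
noncomputable def pre (L : AddSubgroup ℂ) : Subgroup G1 :=
  (AddSubgroup.toSubgroup L).comap aHom

lemma mem_pre (L : AddSubgroup ℂ) (g : G1) : g ∈ pre L ↔ g.a ∈ L := Iff.rfl

/-- The real line. -/
def L1 : AddSubgroup ℂ where
  carrier := {z | z.im = 0}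
  zero_mem' := by simp
  add_mem' := by
    intro a b ha hb
    simp only [Set.mem_ofPred_eq] at *
    rw [Complex.add_im, ha, hb, add_zero]
  neg_mem' := by
    intro a ha
    simp only [Set.mem_ofPred_eq] at *
    rw [Complex.neg_im, ha, neg_zero]

/-- The imaginary line. -/
def L2 : AddSubgroup ℂ where
  carrier := {z | z.re = 0}
  zero_mem' := by simp
  add_mem' := by
    intro a b ha hb
    simp only [Set.mem_ofPred_eq] at *
    rw [Complex.add_re, ha, hb, add_zero]
  neg_mem' := by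
    intro a ha
    simp only [Set.mem_ofPred_eq] at *
    rw [Complex.neg_re, ha, neg_zero]

lemma pre_normal (L : AddSubgroup ℂ) : (pre L).Normal := by
  unfold pre
  infer_instance

/-- The element with given power series. -/
noncomputable def el (b : PowerSeries ℂ) : G1 := ⟨b⟩

lemma el_a (c : ℂ) : (el (PowerSeries.C c)).a = (starRingEnd ℂ) c := by
  simp [el, G1.a]

lemma ne_zero_of_not_mem {L : AddSubgroup ℂ} {g : G1} (hg : g ∉ pre L) : g.a ≠ 0 := by
  intro h
  apply hg
  rw [mem_pre, h]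
  exact L.zero_mem

lemma X_ne : el (PowerSeries.X) ≠ 1 := by
  intro h
  have := congrArg G1.b h
  exact PowerSeries.X_ne_zero this

lemma X_mem (L : AddSubgroup ℂ) : el (PowerSeries.X) ∈ pre L := by
  rw [mem_pre]
  have : (el (PowerSeries.X)).a = 0 := by simp [el, G1.a]
  rw [this]
  exact L.zero_mem

lemma pre_ne_bot (L : AddSubgroup ℂ) : pre L ≠ ⊥ := by
  intro h
  have h1 := X_mem L
  rw [h, Subgroup.mem_bot] at h1
  exact X_ne h1

lemma not_mem_L1 : el (PowerSeries.C Complex.I) ∉ pre L1 := by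
  rw [mem_pre, el_a]
  intro h
  change ((starRingEnd ℂ) Complex.I).im = 0 at h
  simp at h

lemma not_mem_L2 : el (PowerSeries.C 1) ∉ pre L2 := by
  rw [mem_pre, el_a]
  intro h
  change ((starRingEnd ℂ) 1).re = 0 at h
  simp at h

lemma not_mem_bot : el (PowerSeries.C 1) ∉ pre ⊥ := by
  rw [mem_pre, el_a]
  intro h
  rw [AddSubgroup.mem_bot] at h
  simp at h

lemma L1_cond (g : G1) (hg : g ∉ pre L1) (h : G1) (hh : h ∈ pre L1) (x : K1)
    (h1 : g • x = x) (h2 : h • x = x) : h = 1 := by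
  apply fix_trans h _ x h2
  have h3 := common_fix g h x h1 h2
  change h.a.im = 0 at hh
  have hg' : g.a.im ≠ 0 := hg
  have h4 := congrArg Complex.im h3
  simp only [Complex.mul_im, Complex.conj_re, Complex.conj_im, hh] at h4
  apply Complex.ext
  · have : g.a.im * h.a.re = 0 := by
      linarith
    rcases mul_eq_zero.mp this with h5 | h5
    · exact absurd h5 hg'
    · exact h5
  · exact hh

lemma L2_cond (g : G1) (hg : g ∉ pre L2) (h : G1) (hh : h ∈ pre L2) (x : K1)
    (h1 : g • x = x) (h2 : h • x = x) : h = 1 := by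
  apply fix_trans h _ x h2
  have h3 := common_fix g h x h1 h2
  change h.a.re = 0 at hh
  have hg' : g.a.re ≠ 0 := hg
  have h4 := congrArg Complex.im h3
  simp only [Complex.mul_im, Complex.conj_re, Complex.conj_im, hh] at h4
  apply Complex.ext
  · exact hh
  · have : g.a.re * h.a.im = 0 := by
      linarith
    rcases mul_eq_zero.mp this with h5 | h5
    · exact absurd h5 hg'
    · exact h5

lemma bot_cond (g : G1) (_ : g ∉ pre ⊥) (h : G1) (hh : h ∈ pre ⊥) (x : K1)
    (_ : g • x = x) (h2 : h • x = x) : h = 1 :=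
  fix_trans h ((AddSubgroup.mem_bot).mp hh) x h2

theorem fp_L1 : IsNontrivialFrobeniusPartition (pre L1) (stabs K1 (pre L1)) :=
  nontrivial_of_action (pre L1) (pre_normal _) (fun g hg => unique_fix g (ne_zero_of_not_mem hg))
    L1_cond (pre_ne_bot _) _ not_mem_L1

theorem fp_L2 : IsNontrivialFrobeniusPartition (pre L2) (stabs K1 (pre L2)) :=
  nontrivial_of_action (pre L2) (pre_normal _) (fun g hg => unique_fix g (ne_zero_of_not_mem hg))
    L2_cond (pre_ne_bot _) _ not_mem_L2

theorem fp_bot : IsNontrivialFrobeniusPartition (pre ⊥) (stabs K1 (pre ⊥)) :=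
  nontrivial_of_action (pre ⊥) (pre_normal _) (fun g hg => unique_fix g (ne_zero_of_not_mem hg))
    bot_cond (pre_ne_bot _) _ not_mem_bot

lemma L1_ne_L2 : pre L1 ≠ pre L2 := by
  intro h
  apply not_mem_L2
  rw [← h, mem_pre, el_a]
  change ((starRingEnd ℂ) 1).im = 0
  simp

instance : Infinite G1 := by
  apply Infinite.of_injective (fun n : ℕ => el (PowerSeries.C (n : ℂ)))
  intro m n h
  have h2 : PowerSeries.C (m : ℂ) = PowerSeries.C (n : ℂ) := congrArg G1.b h
  have h3 := PowerSeries.C_injective h2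
  exact_mod_cast h3

open Pointwise in
theorem no_complement : ∀ A ∈ stabs K1 (pre ⊥), ((pre ⊥ : Subgroup G1) : Set G1) * (A : Set G1) ≠
    Set.univ := by
  rintro A ⟨x, rfl, _⟩ h
  have key : ∀ c : ℂ, ∃ s : G1, s • x = x ∧ s.a = (starRingEnd ℂ) c := by
    intro c
    have h1 : el (PowerSeries.C c) ∈ ((pre ⊥ : Subgroup G1) : Set G1) *
        ((stabilizer G1 x : Subgroup G1) : Set G1) := by rw [h]; trivial
    obtain ⟨n, hn, s, hs, hns⟩ := h1
    refine ⟨s, mem_stabilizer_iff.mp hs, ?_⟩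
    have h2 : n.a = 0 := (AddSubgroup.mem_bot).mp hn
    have h3 : (n * s).a = (el (PowerSeries.C c)).a := congrArg G1.a hns
    rw [G1.mul_a, h2, zero_add, el_a] at h3
    exact h3
  obtain ⟨s, hs, hsa⟩ := key 1
  obtain ⟨t, ht, hta⟩ := key Complex.I
  have h5 := common_fix s t x hs ht
  rw [hsa, hta] at h5
  have h6 := congrArg Complex.im h5
  simp at h6
  norm_num at h6

/-! ### Second example: the wallpaper group `p4` -/

/-- The group of all maps `z ↦ uz + n`, `u ∈ {±1, ±i}`, `n ∈ ℤ[i]`. -/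
@[ext]
structure P4 where
  /-- the linear part -/
  u : GaussianIntˣ
  /-- the translation part -/
  n : GaussianInt

instance : Group P4 where
  mul g h := ⟨g.u * h.u, g.n + g.u * h.n⟩
  one := ⟨1, 0⟩
  inv g := ⟨g.u⁻¹, -(↑(g.u⁻¹) * g.n)⟩
  mul_assoc g h k := by
    apply P4.ext
    · exact mul_assoc _ _ _
    · change (g.n + g.u * h.n) + ↑(g.u * h.u) * k.n = g.n + g.u * (h.n + h.u * k.n)
      rw [Units.val_mul]; ring
  one_mul g := by
    apply P4.ext
    · exact one_mul _
    · change 0 + ((1 : GaussianIntˣ) : GaussianInt) * g.n = g.n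
      rw [Units.val_one]; ring
  mul_one g := by
    apply P4.ext
    · exact mul_one _
    · change g.n + g.u * 0 = g.n
      ring
  inv_mul_cancel g := by
    apply P4.ext
    · exact inv_mul_cancel _
    · change -(↑(g.u⁻¹) * g.n) + ↑(g.u⁻¹) * g.n = 0
      ring

lemma P4.mul_u (g h : P4) : (g * h).u = g.u * h.u := rfl
lemma P4.mul_n (g h : P4) : (g * h).n = g.n + g.u * h.n := rfl
lemma P4.one_u : (1 : P4).u = 1 := rfl
lemma P4.one_n : (1 : P4).n = 0 := rfl

/-- The field `ℚ(i)`. -/
abbrev K2 := FractionRing GaussianInt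

/-- The embedding of the Gaussian integers. -/
noncomputable abbrev jo : GaussianInt →+* K2 := algebraMap GaussianInt K2

lemma jo_inj : Function.Injective jo := IsFractionRing.injective GaussianInt K2

noncomputable instance : MulAction P4 K2 where
  smul g x := jo g.u * x + jo g.n
  one_smul x := by
    change jo ((1 : P4).u) * x + jo ((1 : P4).n) = x
    rw [P4.one_u, P4.one_n, Units.val_one, map_one, map_zero]; ring
  mul_smul g h x := by
    change jo (g * h).u * x + jo (g * h).n = jo g.u * (jo h.u * x + jo h.n) + jo g.n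
    rw [P4.mul_u, P4.mul_n, Units.val_mul, map_mul, map_add, map_mul]; ring

lemma P4.smul_def (g : P4) (x : K2) : g • x = jo g.u * x + jo g.n := rfl

lemma fix_iff2 (g : P4) (x : K2) : g • x = x ↔ (1 - jo g.u) * x = jo g.n := by
  rw [P4.smul_def]
  constructor
  · intro h; linear_combination -h
  · intro h; linear_combination -h

lemma unique_fix2 (g : P4) (hu : g.u ≠ 1) : ∃! x : K2, g • x = x := by
  have hne : (1 - jo g.u) ≠ 0 := by
    rw [sub_ne_zero]
    intro h
    rw [← map_one jo] at h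
    apply hu
    rw [← Units.val_inj, Units.val_one]
    exact (jo_inj h).symm
  refine ⟨jo g.n / (1 - jo g.u), ?_, ?_⟩
  · change g • _ = _
    rw [fix_iff2, mul_div_cancel₀ _ hne]
  · intro y hy
    rw [fix_iff2] at hy
    rw [eq_div_iff hne, mul_comm]; exact hy

lemma fix_trans2 (g : P4) (hu : g.u = 1) (x : K2) (h : g • x = x) : g = 1 := by
  rw [fix_iff2, hu, Units.val_one, map_one, sub_self, zero_mul] at h
  apply P4.ext
  · exact hu
  · rw [P4.one_n]
    apply jo_inj
    rw [← h, map_zero]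

/-- The linear part as a homomorphism. -/
def uHom : P4 →* GaussianIntˣ where
  toFun := P4.u
  map_one' := rfl
  map_mul' _ _ := rfl

/-- The translation subgroup. -/
def trans : Subgroup P4 := uHom.ker

lemma mem_trans (g : P4) : g ∈ trans ↔ g.u = 1 := MonoidHom.mem_ker

/-- The unit `i`. -/
def iU : GaussianIntˣ := ⟨⟨0, 1⟩, ⟨0, -1⟩, by decide, by decide⟩

lemma iU_sq_ne : iU * iU ≠ 1 := by
  intro h
  have := congrArg Units.val h
  revert this
  decide

lemma iU_ne : iU ≠ 1 := by
  rintro h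
  apply iU_sq_ne
  rw [h, mul_one]

theorem fp_trans : IsNontrivialFrobeniusPartition trans (stabs K2 trans) := by
  refine nontrivial_of_action trans (by unfold trans; infer_instance)
    (fun g hg => unique_fix2 g (fun h => hg ((mem_trans g).mpr h)))
    (fun g _ h hh x _ h2 => fix_trans2 h ((mem_trans h).mp hh) x h2) ?_ ⟨iU, 0⟩ ?_
  · intro h
    have h1 : (⟨1, 1⟩ : P4) ∈ trans := (mem_trans _).mpr rfl
    rw [h, Subgroup.mem_bot] at h1
    have h2 := congrArg P4.n h1
    exact one_ne_zero h2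
  · rw [mem_trans]
    exact iU_ne

lemma trans_ne_bot : trans ≠ ⊥ := by
  intro h
  have h1 : (⟨1, 1⟩ : P4) ∈ trans := (mem_trans _).mpr rfl
  rw [h, Subgroup.mem_bot] at h1
  have h2 := congrArg P4.n h1
  exact one_ne_zero h2

instance : Infinite P4 := by
  apply Infinite.of_injective (fun n : ℤ => (⟨1, (n : GaussianInt)⟩ : P4))
  intro m n h
  have h2 : ((m : ℤ) : GaussianInt) = ((n : ℤ) : GaussianInt) := congrArg P4.n h
  exact_mod_cast h2

lemma neg_one_ne : (-1 : GaussianIntˣ) ≠ 1 := by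
  intro h
  have := congrArg Units.val h
  revert this
  decide

/-- In the stabiliser of `1/2` all elements are involutions. -/
lemma half_sq (g : P4) (h : g • (1 / 2 : K2) = 1 / 2) : g * g = 1 := by
  have h1 := h
  rw [fix_iff2] at h1
  have h2 : (1 - jo g.u) = jo (2 * g.n) := by
    rw [map_mul, ← h1, map_ofNat]
    field_simp
  have h3 : 1 - (g.u : GaussianInt) = 2 * g.n := by
    apply jo_inj
    rw [← h2, map_sub, map_one]
  have hu : (g.u : GaussianInt) = 1 - 2 * g.n := by rw [← h3]; ring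
  -- the norm of a unit is one
  have h4 : Zsqrtd.norm (g.u : GaussianInt) = 1 := by
    have h5 : (Zsqrtd.norm (g.u : GaussianInt)).natAbs = 1 :=
      Zsqrtd.norm_eq_one_iff.mpr g.u.isUnit
    have h6 : 0 ≤ Zsqrtd.norm (g.u : GaussianInt) := GaussianInt.norm_nonneg _
    omega
  have h7 : (g.u : GaussianInt) * g.u = 1 := by
    rw [Zsqrtd.norm_def] at h4
    have hre : (g.u : GaussianInt).re = 1 - 2 * g.n.re := by
      rw [hu]; simp
    have him : (g.u : GaussianInt).im = - 2 * g.n.im := by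
      rw [hu]; simp
    have h8 : (g.u : GaussianInt).im = 0 := by
      have : (g.u : GaussianInt).im * (g.u : GaussianInt).im ≤ 1 := by nlinarith
      have h9 : (g.u : GaussianInt).im ≤ 1 := by nlinarith
      have h10 : -1 ≤ (g.u : GaussianInt).im := by nlinarith
      omega
    have h9 : (g.u : GaussianInt).re * (g.u : GaussianInt).re = 1 := by
      rw [h8] at h4; linarith
    apply Zsqrtd.ext
    · simp [h8, h9]
    · simp [h8]
  apply fix_trans2 _ _ (1 / 2 : K2)
  · rw [mul_smul, h, h]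
  · rw [P4.mul_u, ← Units.val_inj, Units.val_mul, h7, Units.val_one]

theorem p4_not_iso : ∃ A ∈ stabs K2 trans, ∃ B ∈ stabs K2 trans, IsEmpty (A ≃* B) := by
  refine ⟨stabilizer P4 (0 : K2), ⟨0, rfl, ⟨iU, 0⟩, ?_, ?_⟩,
    stabilizer P4 (1 / 2 : K2), ⟨1 / 2, rfl, ⟨-1, 1⟩, ?_, ?_⟩, ⟨fun e => ?_⟩⟩
  · rw [mem_trans]; exact iU_ne
  · rw [fix_iff2, map_zero, mul_zero]
  · rw [mem_trans]; exact neg_one_ne
  · rw [fix_iff2, Units.val_neg, Units.val_one, map_neg, map_one]; norm_num
  · have hmem : (⟨iU, 0⟩ : P4) ∈ stabilizer P4 (0 : K2) := by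
      rw [mem_stabilizer_iff, fix_iff2, map_zero, mul_zero]
    let ρ : stabilizer P4 (0 : K2) := ⟨⟨iU, 0⟩, hmem⟩
    have h1 : e ρ * e ρ = 1 := by
      apply Subtype.ext
      exact half_sq _ (mem_stabilizer_iff.mp (e ρ).2)
    have h2 : ρ * ρ = 1 := by
      apply e.injective
      rw [map_mul, h1, map_one]
    have h3 := congrArg (fun s : stabilizer P4 (0 : K2) => (s : P4).u) h2
    exact iU_sq_ne h3

end Pool.Agent.H7.Frobenius
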